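import Pool.Agent.H491R3.Contra

/-!
# The uniform ratios formula for the family of the characters of conductor `8|d|` fails under GRH

Subtracting the formula at the scales `X` and `X / 4` removes the first main term.  With
`α = -β`, `Re β = 1/5`, the functional equation turns what is left into a bound for a sum over
`d` of `|d|^β (W_d L(1/2 + β) / L(1/2 + γ) - Φ(β, γ))`.  Integrating against a Gaussian in
`Im β` around `X^(0.98)` of width `X^(0.96)` multiplied by Dirichlet polynomials over `d'`
close to `X`, and against a Gaussian in `Im γ` which picks the coefficient of a prime `p` in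
`1 / L(1/2 + γ)`, isolates the terms with `|d|` close to `d'`; summing over many primes `p`
the diagonal `d = d'` has size `1/2` for each `p`, while the formula would make it
smaller by a power of `X`.
-/

set_option autoImplicit false

namespace Pool.Agent.Results.MP_d2a082_nt.UniformFails

open Complex Pool.Agent.H491R3

/-- Under GRH there is an even nonnegative nonzero Schwartz function `w` such that for every
`0 < ε ≤ 1/100` and all `c₀, C₀ > 0` the ratios formula with error `O(X^(-1/2 + ε))` does not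
hold uniformly on the region `-1/4 < Re α < 1/4`, `c₀ / log X ≤ Re γ < 1/4`,
`|Im α|, |Im γ| ≤ C₀ X^(1 - ε)`; it already fails on the lines `Re α = -1/5`, `Re γ = 1/10`. -/
theorem result : GRH → ∃ w : SchwartzMap ℝ ℝ, (∀ x, w (-x) = w x) ∧ (∀ x, 0 ≤ w x) ∧ w ≠ 0 ∧
    ∀ ε c₀ C₀ : ℝ, 0 < ε → ε ≤ 1 / 100 → 0 < c₀ → 0 < C₀ →
      ¬ ∃ K X₀ : ℝ, ∀ X : ℝ, X₀ ≤ X → ∀ α γ : ℂ, α.re = -(1 / 5) → γ.re = 1 / 10 →
        c₀ / Real.log X ≤ γ.re → |α.im| ≤ C₀ * X ^ (1 - ε) →
        |γ.im| ≤ C₀ * X ^ (1 - ε) →
        ‖avg w X (fun d => L d (1 / 2 + α) / L d (1 / 2 + γ)) -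
          (Phi α γ + avg w X (fun d => Xd d (1 / 2 + α)) * Phi (-α) γ)‖ ≤
            K * X ^ (-(1 / 2) + ε) := by
  intro hG
  refine ⟨wgt, wgt_wt.even, wgt_wt.nonneg, ?_, ?_⟩
  · intro h
    have h1 : wgt (5 / 4) = 1 := by
      apply wgt_wt.one
      · rw [abs_of_pos (by norm_num)]; norm_num
      · rw [abs_of_pos (by norm_num)]; norm_num
    rw [h, SchwartzMap.zero_apply] at h1
    norm_num at h1
  · intro ε c₀ C₀ _ hε _ hC₀ h
    have h2 : UniformRatios wgt ε c₀ C₀ := h
    exact not_uniform hG wgt_wt hC₀ (h2.mono hC₀ hε)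

end Pool.Agent.Results.MP_d2a082_nt.UniformFails
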